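import Pool.Agent.Lib.MP_fb520c_co.Asm.Fin
import Pool.Agent.Lib.MP_fb520c_co.Cert.AF
import Pool.Agent.Lib.MP_fb520c_co.Cert.BF

/-! Certificate data, part Main. -/

set_option autoImplicit false
set_option maxRecDepth 100000

namespace Pool.Agent.Lib.MP_fb520c_co.Cert

open Asm

theorem no {b : ℂ → ℂ} (h : Hyp su b) : False :=
  (branch h.adm upA).elim (fun hu => A_no h hu) fun hd =>
  B_no h h.phase.2 hd

theorem empty : Empty2 (18061986586 / (2 * 10000000000)) (18061986586 * 100000000 / (10000000000 * 151641381)) := by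
  simpa [su] using empty_of su su_ok fun _ => no

end Pool.Agent.Lib.MP_fb520c_co.Cert
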